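import Pool.Agent.Lib.MP_b83a82_al.Alg.Main
import Pool.Agent.Lib.MP_b83a82_al.AF.Cocycle

/-!
The algebra input of the abelian-factor theorem.
-/
set_option autoImplicit false

namespace Pool.Agent.Lib.MP_b83a82_al.Alg

open Module

universe u

theorem foldr_of_inr_pow (p : ℕ) [hp : Fact p.Prime] (M : Type u) [NonUnitalCommRing M]
    [Module (ZMod p) M] [IsScalarTower (ZMod p) M M] [SMulCommClass (ZMod p) M M]
    (hM : ∀ x : M, ∃ k : ℕ, (Unitization.inr x : Unitization (ZMod p) M) ^ (p ^ k) = 0)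
    (x : M) : ∃ m : ℕ, (List.replicate m x).foldr (· * ·) x = 0 := by
  obtain ⟨k, hk⟩ := hM x
  refine ⟨p ^ k - 1, ?_⟩
  have key : ∀ m : ℕ, (Unitization.inr x : Unitization (ZMod p) M) ^ (m + 1) =
      Unitization.inr ((List.replicate m x).foldr (· * ·) x) := by
    intro m
    induction m with
    | zero => simp
    | succ m ih =>
      rw [pow_succ', ih, ← Unitization.inr_mul]
      rfl
  have h1 := key (p ^ k - 1)
  rw [Nat.sub_add_cancel (Nat.one_le_pow _ _ hp.out.pos), hk] at h1
  apply Unitization.inr_injective (R := ZMod p)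
  rw [← h1, Unitization.inr_zero]

theorem algCard (p C : ℕ) [hp : Fact p.Prime] (hC : C = 3 ∨ (C = 2 ∧ 3 ≤ p)) :
    AF.AlgCard.{u} p C := by
  intro M _ _ _ _ _ hM
  have hpM : ∀ x : M, p • x = 0 := by
    intro x
    rw [← Nat.cast_smul_eq_nsmul (ZMod p)]
    simp
  have h1 := card_le_pow' p hp.out C hC M hpM (foldr_of_inr_pow p M hM)
  have h2 : Nat.card {x : M // (Unitization.inr x : Unitization (ZMod p) M) ^ p = 0} =
      Nat.card {x : M // ppow p x = 0} := by
    apply Nat.card_congr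
    apply Equiv.subtypeEquivRight
    intro x
    rw [ppow_inr]
    constructor
    · intro h
      apply Unitization.inr_injective (R := ZMod p)
      rw [h, Unitization.inr_zero]
    · intro h
      rw [h, Unitization.inr_zero]
  rw [h2]
  exact h1

theorem algCard_three (p : ℕ) [Fact p.Prime] : AF.AlgCard.{u} p 3 := algCard p 3 (Or.inl rfl)

theorem algCard_two (p : ℕ) [Fact p.Prime] (hp3 : 3 ≤ p) : AF.AlgCard.{u} p 2 :=
  algCard p 2 (Or.inr ⟨rfl, hp3⟩)

end Pool.Agent.Lib.MP_b83a82_al.Alg
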