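import Mathlib

/-!
The dimension count.
-/
set_option autoImplicit false

namespace Pool.Agent.Lib.MP_b83a82_al.Alg

open Module

section Aux

variable {K A : Type*} [Field K] [CommRing A] [Algebra K A] [FiniteDimensional K A]

/-- rank-nullity on a subspace -/
private theorem cnt_rn (P : A →ₗ[K] A) (U : Submodule K A) :
    finrank K (U.map P) + finrank K (U ⊓ LinearMap.ker P : Submodule K A) = finrank K U := by
  have h := LinearMap.finrank_range_add_finrank_ker (P.domRestrict U)
  rw [LinearMap.range_domRestrict] at h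
  have h1 : (LinearMap.ker (P.domRestrict U)).map U.subtype = U ⊓ LinearMap.ker P := by
    ext x
    simp only [Submodule.mem_map, LinearMap.mem_ker, LinearMap.domRestrict_apply,
      Submodule.subtype_apply, Submodule.mem_inf]
    constructor
    · rintro ⟨y, hy, rfl⟩
      exact ⟨y.2, hy⟩
    · rintro ⟨hx, hx0⟩
      exact ⟨⟨x, hx⟩, hx0, rfl⟩
  have h2 := Submodule.finrank_map_subtype_eq U (LinearMap.ker (P.domRestrict U))
  rw [h1] at h2
  rw [h2]
  exact h

/-- dimension of the span of the image of a semilinear map -/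
private theorem cnt_semi0 (F : A →+ A) (p : ℕ) (hF : ∀ (c : K) (x : A), F (c • x) = c ^ p • F x)
    (C : Submodule K A) : finrank K (Submodule.span K (F '' (C : Set A))) ≤ finrank K C := by
  let b := Module.finBasis K C
  have h1 : Submodule.span K (F '' (C : Set A)) ≤
      Submodule.span K (Set.range fun i => F (b i : A)) := by
    rw [Submodule.span_le]
    rintro _ ⟨y, hy, rfl⟩
    have h2 : y = ∑ i, b.repr ⟨y, hy⟩ i • (b i : A) := by
      have h3 := congrArg (fun z : C => (z : A)) (b.sum_repr ⟨y, hy⟩)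
      simp only [Submodule.coe_sum, Submodule.coe_smul] at h3
      exact h3.symm
    rw [h2, map_sum]
    refine Submodule.sum_mem _ fun i _ => ?_
    rw [hF]
    exact Submodule.smul_mem _ _ (Submodule.subset_span ⟨i, rfl⟩)
  refine (Submodule.finrank_mono h1).trans ?_
  have h4 := finrank_range_le_card (R := K) (fun i => F (b i : A))
  rw [Fintype.card_fin] at h4
  exact h4

private theorem cnt_semi (F : A →+ A) (p : ℕ) (hF : ∀ (c : K) (x : A), F (c • x) = c ^ p • F x)
    {U0 U : Submodule K A} (h : U0 ≤ U) :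
    finrank K (Submodule.span K (F '' (U : Set A))) + finrank K U0 ≤
      finrank K (Submodule.span K (F '' (U0 : Set A))) + finrank K U := by
  obtain ⟨q, hq⟩ := Submodule.exists_isCompl U0
  have h1 : U0 ⊔ q ⊓ U = U := by
    rw [← sup_inf_assoc_of_le q h, hq.sup_eq_top, top_inf_eq]
  have h2 : U0 ⊓ (q ⊓ U) = ⊥ := by
    rw [← inf_assoc, hq.inf_eq_bot, bot_inf_eq]
  have h3 := Submodule.finrank_sup_add_finrank_inf_eq U0 (q ⊓ U)
  rw [h1, h2, finrank_bot, add_zero] at h3
  have h4 : Submodule.span K (F '' (U : Set A)) ≤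
      Submodule.span K (F '' (U0 : Set A)) ⊔
        Submodule.span K (F '' ((q ⊓ U : Submodule K A) : Set A)) := by
    rw [Submodule.span_le]
    rintro _ ⟨u, hu, rfl⟩
    have hu' : u ∈ U0 ⊔ q ⊓ U := by
      rw [h1]
      exact hu
    obtain ⟨x, hx, y, hy, rfl⟩ := Submodule.mem_sup.1 hu'
    rw [map_add]
    exact Submodule.add_mem _ (Submodule.mem_sup_left (Submodule.subset_span ⟨x, hx, rfl⟩))
      (Submodule.mem_sup_right (Submodule.subset_span ⟨y, hy, rfl⟩))
  have h5 := Submodule.finrank_mono h4
  have h6 := Submodule.finrank_add_le_finrank_add_finrank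
    (Submodule.span K (F '' (U0 : Set A)))
    (Submodule.span K (F '' ((q ⊓ U : Submodule K A) : Set A)))
  have h7 := cnt_semi0 F p hF (q ⊓ U)
  omega

/-- multiples of `a ^ j` -/
private def cR (I : Ideal A) (a : A) (j : ℕ) : Submodule K A :=
  (I.restrictScalars K).map (LinearMap.mulLeft K (a ^ j))

private theorem cR_map (I : Ideal A) (a : A) (i j : ℕ) :
    (cR (K := K) I a j).map (LinearMap.mulLeft K (a ^ i)) = cR (K := K) I a (i + j) := by
  unfold cR
  rw [← Submodule.map_comp, ← LinearMap.mulLeft_mul, ← pow_add]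

private theorem cR_zero (I : Ideal A) (a : A) : cR (K := K) I a 0 = I.restrictScalars K := by
  unfold cR
  rw [pow_zero, LinearMap.mulLeft_one, Submodule.map_id]

private theorem cR_anti (I : Ideal A) (a : A) (j : ℕ) :
    cR (K := K) I a (j + 1) ≤ cR (K := K) I a j := by
  rintro _ ⟨x, hx, rfl⟩
  refine ⟨a * x, I.mul_mem_left a hx, ?_⟩
  simp only [LinearMap.mulLeft_apply]
  ring

private theorem cR_anti' (I : Ideal A) (a : A) : Antitone (cR (K := K) I a) :=
  antitone_nat_of_succ_le (cR_anti I a)

/-- the basic relation: `N` versus `R 1 + (N ∩ ker a ^ s)` -/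
private theorem cnt_U0 (I : Ideal A) (a : A) (s : ℕ) :
    finrank K (cR (K := K) I a 0) + finrank K (cR (K := K) I a (s + 1)) =
      finrank K (cR (K := K) I a 1 ⊔
        (cR (K := K) I a 0 ⊓ LinearMap.ker (LinearMap.mulLeft K (a ^ s))) : Submodule K A) +
      finrank K (cR (K := K) I a s) := by
  set P : A →ₗ[K] A := LinearMap.mulLeft K (a ^ s) with hP
  set U0 : Submodule K A := cR (K := K) I a 1 ⊔ (cR (K := K) I a 0 ⊓ LinearMap.ker P) with hU0
  have h1 := cnt_rn P (cR (K := K) I a 0)
  have h2 := cnt_rn P U0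
  have h3 : (cR (K := K) I a 0).map P = cR (K := K) I a s := by
    rw [hP, cR_map, add_zero]
  have h4 : U0.map P = cR (K := K) I a (s + 1) := by
    have hk : (cR (K := K) I a 0 ⊓ LinearMap.ker P).map P = ⊥ := by
      rw [eq_bot_iff]
      rintro _ ⟨x, hx, rfl⟩
      exact LinearMap.mem_ker.1 hx.2
    rw [hU0, Submodule.map_sup, hk, sup_bot_eq, hP, cR_map]
  have h5 : U0 ⊓ LinearMap.ker P = cR (K := K) I a 0 ⊓ LinearMap.ker P := by
    apply le_antisymm
    · refine inf_le_inf_right _ (sup_le ?_ inf_le_left)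
      exact cR_anti I a 0
    · exact le_inf (le_sup_right) inf_le_right
  rw [h3] at h1
  rw [h4, h5] at h2
  omega

end Aux

/-- If `a ∈ I` is nilpotent and satisfies (A), then `3 dim Φ(I) ≤ 2 dim I`, where
`Φ(I)` is the span of the `p`-th powers of the elements of `I`. -/
theorem count (K : Type*) [Field K] (p : ℕ) [Fact p.Prime] [CharP K p]
    (A : Type*) [CommRing A] [Algebra K A] [FiniteDimensional K A] (I : Ideal A)
    (a : A) (ha : IsNilpotent a)
    (hA : ∀ (i : ℕ), ∀ w ∈ I, a ^ (p * i + 1) * w = 0 →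
      ∃ c ∈ I, a ^ (p * i) * w ^ p = a ^ (p * i + 1) * c) :
    3 * finrank K (Submodule.span K ((fun x : A => x ^ p) '' (I : Set A))) ≤
      2 * finrank K (I.restrictScalars K) := by
  have hp : 2 ≤ p := (Fact.out : p.Prime).two_le
  rcases subsingleton_or_nontrivial A with hsub | hnt
  · have h1 : finrank K (Submodule.span K ((fun x : A => x ^ p) '' (I : Set A))) = 0 := by
      have h2 := Submodule.finrank_le (Submodule.span K ((fun x : A => x ^ p) '' (I : Set A)))
      have h3 : finrank K A = 0 := finrank_zero_of_subsingleton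
      omega
    rw [h1]
    omega
  have hp0 : p ≠ 0 := by omega
  have : CharP A p := charP_of_injective_algebraMap (algebraMap K A).injective p
  -- the semilinear maps
  let F : ℕ → A →+ A := fun i =>
    { toFun := fun x => (a ^ i * x) ^ p
      map_zero' := by rw [mul_zero, zero_pow hp0]
      map_add' := fun x y => by rw [mul_add, add_pow_char] }
  have hFa : ∀ i x, F i x = (a ^ i * x) ^ p := fun i x => rfl
  have hF : ∀ i (c : K) (x : A), F i (c • x) = c ^ p • F i x := by
    intro i c x
    rw [hFa, hFa, mul_smul_comm, smul_pow]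
  let R : ℕ → Submodule K A := cR I a
  let r : ℕ → ℕ := fun j => finrank K (R j)
  let m : A →ₗ[K] A := LinearMap.mulLeft K a
  let d : ℕ → ℕ := fun j => finrank K (R j ⊓ LinearMap.ker m : Submodule K A)
  let φ : ℕ → ℕ := fun i => finrank K (Submodule.span K (F i '' (R 0 : Set A)))
  have hR0 : ∀ x, x ∈ R 0 ↔ x ∈ I := by
    intro x
    change x ∈ cR (K := K) I a 0 ↔ _
    rw [cR_zero]
    rfl
  have hrd : ∀ j, r (j + 1) + d j = r j := by
    intro j
    have h1 := cnt_rn m (R j)
    have h2 : (R j).map m = R (j + 1) := by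
      have h3 := cR_map (K := K) I a 1 j
      rw [pow_one, add_comm 1 j] at h3
      exact h3
    rw [h2] at h1
    exact h1
  have hdanti : Antitone d := by
    intro i j hij
    exact Submodule.finrank_mono (inf_le_inf_right _ (cR_anti' I a hij))
  -- first estimate
  have h3 : ∀ i, φ i ≤ φ (i + 1) + d (p * i) := by
    intro i
    have h4 := cnt_U0 (K := K) I a (p * i)
    set U0 : Submodule K A := cR (K := K) I a 1 ⊔
      (cR (K := K) I a 0 ⊓ LinearMap.ker (LinearMap.mulLeft K (a ^ (p * i)))) with hU0
    have hle : U0 ≤ R 0 := sup_le (cR_anti I a 0) inf_le_left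
    have h5 := cnt_semi (F i) p (hF i) hle
    have h6 : Submodule.span K (F i '' (U0 : Set A)) ≤
        Submodule.span K (F (i + 1) '' (R 0 : Set A)) := by
      rw [Submodule.span_le]
      rintro _ ⟨u, hu, rfl⟩
      obtain ⟨x, hx, w, hw, rfl⟩ := Submodule.mem_sup.1 hu
      obtain ⟨y, hy, rfl⟩ := hx
      rw [map_add]
      have h7 : F i w = 0 := by
        have h8 : a ^ (p * i) * w = 0 := hw.2
        rw [hFa, mul_pow, ← pow_mul, mul_comm i p]
        have h9 : w ^ p = w * w ^ (p - 1) := by
          rw [← pow_succ', Nat.sub_add_cancel (by omega)]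
        rw [h9, ← mul_assoc, h8, zero_mul]
      rw [h7, add_zero]
      refine Submodule.subset_span ⟨y, (hR0 y).2 hy, ?_⟩
      rw [hFa, hFa, LinearMap.mulLeft_apply, pow_one, pow_succ, mul_assoc]
    have h8 := Submodule.finrank_mono h6
    have h9 := hrd (p * i)
    change finrank K (R 0) + finrank K (R (p * i + 1)) = finrank K U0 +
      finrank K (R (p * i)) at h4
    change finrank K (Submodule.span K (F i '' (R 0 : Set A))) ≤
      finrank K (Submodule.span K (F (i + 1) '' (R 0 : Set A))) + d (p * i)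
    change finrank K (R (p * i + 1)) + d (p * i) = finrank K (R (p * i)) at h9
    omega
  -- second estimate
  have h4 : ∀ i, φ i ≤ φ (i + 1) + 2 * d (p * i + 1) := by
    intro i
    have h4 := cnt_U0 (K := K) I a (p * i + 1)
    set W : Submodule K A := cR (K := K) I a 0 ⊓
      LinearMap.ker (LinearMap.mulLeft K (a ^ (p * i + 1))) with hW
    set U0 : Submodule K A := cR (K := K) I a 1 ⊔ W with hU0
    have hle : U0 ≤ R 0 := sup_le (cR_anti I a 0) inf_le_left
    have h5 := cnt_semi (F i) p (hF i) hle
    have h6 : Submodule.span K (F i '' (U0 : Set A)) ≤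
        Submodule.span K (F (i + 1) '' (R 0 : Set A)) ⊔
          (R (p * i + 1) ⊓ LinearMap.ker m : Submodule K A) := by
      rw [Submodule.span_le]
      rintro _ ⟨u, hu, rfl⟩
      obtain ⟨x, hx, w, hw, rfl⟩ := Submodule.mem_sup.1 hu
      obtain ⟨y, hy, rfl⟩ := hx
      rw [map_add]
      refine Submodule.add_mem _ (Submodule.mem_sup_left ?_) (Submodule.mem_sup_right ?_)
      · refine Submodule.subset_span ⟨y, (hR0 y).2 hy, ?_⟩
        rw [hFa, hFa, LinearMap.mulLeft_apply, pow_one, pow_succ, mul_assoc]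
      · have haw : a ^ (p * i + 1) * w = 0 := hw.2
        obtain ⟨c, hc, hwc⟩ := hA i w ((hR0 w).1 hw.1) haw
        have h7 : F i w = a ^ (p * i) * w ^ p := by
          rw [hFa, mul_pow, ← pow_mul, mul_comm i p]
        rw [h7]
        refine ⟨⟨c, hc, ?_⟩, ?_⟩
        · rw [hwc, LinearMap.mulLeft_apply]
        · change a * (a ^ (p * i) * w ^ p) = 0
          have h9 : w ^ p = w * w ^ (p - 1) := by
            rw [← pow_succ', Nat.sub_add_cancel (by omega)]
          calc a * (a ^ (p * i) * w ^ p) = (a ^ (p * i + 1) * w) * w ^ (p - 1) := by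
                rw [h9]; ring
            _ = 0 := by rw [haw, zero_mul]
    have h8 := Submodule.finrank_mono h6
    have h8' := Submodule.finrank_add_le_finrank_add_finrank
      (Submodule.span K (F (i + 1) '' (R 0 : Set A)))
      (R (p * i + 1) ⊓ LinearMap.ker m : Submodule K A)
    have h9 := hrd (p * i + 1)
    change finrank K (R 0) + finrank K (R (p * i + 1 + 1)) = finrank K U0 +
      finrank K (R (p * i + 1)) at h4
    change finrank K (Submodule.span K (F i '' (R 0 : Set A))) ≤
      finrank K (Submodule.span K (F (i + 1) '' (R 0 : Set A))) + 2 * d (p * i + 1)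
    change finrank K (R (p * i + 1 + 1)) + d (p * i + 1) = finrank K (R (p * i + 1)) at h9
    change _ ≤ _ + d (p * i + 1) at h8'
    omega
  -- summation
  obtain ⟨N, hN⟩ := ha
  have hφN : ∀ i, N ≤ i → φ i = 0 := by
    intro i hi
    have h5 : a ^ i = 0 := pow_eq_zero_of_le hi hN
    have h6 : Submodule.span K (F i '' (R 0 : Set A)) = ⊥ := by
      rw [Submodule.span_eq_bot]
      rintro _ ⟨x, -, rfl⟩
      rw [hFa, h5, zero_mul, zero_pow hp0]
    change finrank K (Submodule.span K (F i '' (R 0 : Set A))) = 0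
    rw [h6, finrank_bot]
  have h5 : ∀ k i, N ≤ i + k → 3 * φ i ≤ 2 * r (2 * i) := by
    intro k
    induction k with
    | zero =>
      intro i hi
      rw [hφN i (by omega)]
      omega
    | succ k ih =>
      intro i hi
      have e1 := ih (i + 1) (by omega)
      have e2 := h3 i
      have e3 := h4 i
      have e4 := hrd (2 * i)
      have e5 := hrd (2 * i + 1)
      have e6 : d (p * i) ≤ d (2 * i) := hdanti (Nat.mul_le_mul_right i hp)
      have e7 : d (p * i + 1) ≤ d (2 * i + 1) :=
        hdanti (Nat.add_le_add_right (Nat.mul_le_mul_right i hp) 1)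
      have e8 : 2 * (i + 1) = 2 * i + 1 + 1 := by ring
      rw [e8] at e1
      omega
  have hfin : 3 * φ 0 ≤ 2 * r 0 := h5 N 0 (by omega)
  have hr0 : r 0 = finrank K (I.restrictScalars K) := by
    change finrank K (cR (K := K) I a 0) = _
    rw [cR_zero]
  have hφ0 : φ 0 = finrank K (Submodule.span K ((fun x : A => x ^ p) '' (I : Set A))) := by
    change finrank K (Submodule.span K (F 0 '' (R 0 : Set A))) = _
    have : F 0 '' (R 0 : Set A) = (fun x : A => x ^ p) '' (I : Set A) := by
      have h6 : (R 0 : Set A) = (I : Set A) := Set.ext hR0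
      rw [h6]
      refine Set.image_congr fun x _ => ?_
      rw [hFa, pow_zero, one_mul]
    rw [this]
  rw [← hr0, ← hφ0]
  exact hfin

/-- If `a ∈ I` is nilpotent and `a ^ (p i + 1) w = 0` implies `a ^ (p i) w ^ p = 0`, then
`2 dim Φ(I) ≤ dim I`. -/
theorem countOdd (K : Type*) [Field K] (p : ℕ) [Fact p.Prime] [CharP K p]
    (A : Type*) [CommRing A] [Algebra K A] [FiniteDimensional K A] (I : Ideal A)
    (a : A) (ha : IsNilpotent a)
    (hA : ∀ (i : ℕ), ∀ w ∈ I, a ^ (p * i + 1) * w = 0 → a ^ (p * i) * w ^ p = 0) :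
    2 * finrank K (Submodule.span K ((fun x : A => x ^ p) '' (I : Set A))) ≤
      finrank K (I.restrictScalars K) := by
  have hp : 2 ≤ p := (Fact.out : p.Prime).two_le
  rcases subsingleton_or_nontrivial A with hsub | hnt
  · have h1 : finrank K (Submodule.span K ((fun x : A => x ^ p) '' (I : Set A))) = 0 := by
      have h2 := Submodule.finrank_le (Submodule.span K ((fun x : A => x ^ p) '' (I : Set A)))
      have h3 : finrank K A = 0 := finrank_zero_of_subsingleton
      omega
    rw [h1]
    omega
  have hp0 : p ≠ 0 := by omega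
  have : CharP A p := charP_of_injective_algebraMap (algebraMap K A).injective p
  -- the semilinear maps
  let F : ℕ → A →+ A := fun i =>
    { toFun := fun x => (a ^ i * x) ^ p
      map_zero' := by rw [mul_zero, zero_pow hp0]
      map_add' := fun x y => by rw [mul_add, add_pow_char] }
  have hFa : ∀ i x, F i x = (a ^ i * x) ^ p := fun i x => rfl
  have hF : ∀ i (c : K) (x : A), F i (c • x) = c ^ p • F i x := by
    intro i c x
    rw [hFa, hFa, mul_smul_comm, smul_pow]
  let R : ℕ → Submodule K A := cR I a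
  let r : ℕ → ℕ := fun j => finrank K (R j)
  let m : A →ₗ[K] A := LinearMap.mulLeft K a
  let d : ℕ → ℕ := fun j => finrank K (R j ⊓ LinearMap.ker m : Submodule K A)
  let φ : ℕ → ℕ := fun i => finrank K (Submodule.span K (F i '' (R 0 : Set A)))
  have hR0 : ∀ x, x ∈ R 0 ↔ x ∈ I := by
    intro x
    change x ∈ cR (K := K) I a 0 ↔ _
    rw [cR_zero]
    rfl
  have hrd : ∀ j, r (j + 1) + d j = r j := by
    intro j
    have h1 := cnt_rn m (R j)
    have h2 : (R j).map m = R (j + 1) := by
      have h3 := cR_map (K := K) I a 1 j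
      rw [pow_one, add_comm 1 j] at h3
      exact h3
    rw [h2] at h1
    exact h1
  have hdanti : Antitone d := by
    intro i j hij
    exact Submodule.finrank_mono (inf_le_inf_right _ (cR_anti' I a hij))
  have h3 : ∀ i, φ i ≤ φ (i + 1) + d (p * i + 1) := by
    intro i
    have h4 := cnt_U0 (K := K) I a (p * i + 1)
    set U0 : Submodule K A := cR (K := K) I a 1 ⊔
      (cR (K := K) I a 0 ⊓ LinearMap.ker (LinearMap.mulLeft K (a ^ (p * i + 1)))) with hU0
    have hle : U0 ≤ R 0 := sup_le (cR_anti I a 0) inf_le_left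
    have h5 := cnt_semi (F i) p (hF i) hle
    have h6 : Submodule.span K (F i '' (U0 : Set A)) ≤
        Submodule.span K (F (i + 1) '' (R 0 : Set A)) := by
      rw [Submodule.span_le]
      rintro _ ⟨u, hu, rfl⟩
      obtain ⟨x, hx, w, hw, rfl⟩ := Submodule.mem_sup.1 hu
      obtain ⟨y, hy, rfl⟩ := hx
      rw [map_add]
      have h7 : F i w = 0 := by
        rw [hFa, mul_pow, ← pow_mul, mul_comm i p]
        exact hA i w ((hR0 w).1 hw.1) hw.2
      rw [h7, add_zero]
      refine Submodule.subset_span ⟨y, (hR0 y).2 hy, ?_⟩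
      rw [hFa, hFa, LinearMap.mulLeft_apply, pow_one, pow_succ, mul_assoc]
    have h8 := Submodule.finrank_mono h6
    have h9 := hrd (p * i + 1)
    change finrank K (R 0) + finrank K (R (p * i + 1 + 1)) = finrank K U0 +
      finrank K (R (p * i + 1)) at h4
    change finrank K (Submodule.span K (F i '' (R 0 : Set A))) ≤
      finrank K (Submodule.span K (F (i + 1) '' (R 0 : Set A))) + d (p * i + 1)
    change finrank K (R (p * i + 1 + 1)) + d (p * i + 1) = finrank K (R (p * i + 1)) at h9
    omega
  -- summation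
  obtain ⟨N, hN⟩ := ha
  have hφN : ∀ i, N ≤ i → φ i = 0 := by
    intro i hi
    have h5 : a ^ i = 0 := pow_eq_zero_of_le hi hN
    have h6 : Submodule.span K (F i '' (R 0 : Set A)) = ⊥ := by
      rw [Submodule.span_eq_bot]
      rintro _ ⟨x, -, rfl⟩
      rw [hFa, h5, zero_mul, zero_pow hp0]
    change finrank K (Submodule.span K (F i '' (R 0 : Set A))) = 0
    rw [h6, finrank_bot]
  have h5 : ∀ k i, N ≤ i + k → 2 * φ i ≤ r (2 * i) := by
    intro k
    induction k with
    | zero =>
      intro i hi
      rw [hφN i (by omega)]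
      omega
    | succ k ih =>
      intro i hi
      have e1 := ih (i + 1) (by omega)
      have e2 := h3 i
      have e4 := hrd (2 * i)
      have e5 := hrd (2 * i + 1)
      have e6 : d (2 * i + 1) ≤ d (2 * i) := hdanti (Nat.le_succ _)
      have e7 : d (p * i + 1) ≤ d (2 * i + 1) :=
        hdanti (Nat.add_le_add_right (Nat.mul_le_mul_right i hp) 1)
      have e8 : 2 * (i + 1) = 2 * i + 1 + 1 := by ring
      rw [e8] at e1
      omega
  have hfin : 2 * φ 0 ≤ r 0 := h5 N 0 (by omega)
  have hr0 : r 0 = finrank K (I.restrictScalars K) := by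
    change finrank K (cR (K := K) I a 0) = _
    rw [cR_zero]
  have hφ0 : φ 0 = finrank K (Submodule.span K ((fun x : A => x ^ p) '' (I : Set A))) := by
    change finrank K (Submodule.span K (F 0 '' (R 0 : Set A))) = _
    have : F 0 '' (R 0 : Set A) = (fun x : A => x ^ p) '' (I : Set A) := by
      have h6 : (R 0 : Set A) = (I : Set A) := Set.ext hR0
      rw [h6]
      refine Set.image_congr fun x _ => ?_
      rw [hFa, pow_zero, one_mul]
    rw [this]
  rw [← hr0, ← hφ0]
  exact hfin

end Pool.Agent.Lib.MP_b83a82_al.Alg
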