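import Pool.Agent.Lib.MP_b83a82_al.Alg.Gen
import Pool.Agent.Lib.MP_b83a82_al.Alg.Count

/-!
`3 dim Φ(I) ≤ 2 dim I` over infinite fields.
-/
set_option autoImplicit false

namespace Pool.Agent.Lib.MP_b83a82_al.Alg

open Module

theorem core (K : Type*) [Field K] [Infinite K] (p : ℕ) [hp : Fact p.Prime] [CharP K p]
    (A : Type*) [CommRing A] [Algebra K A] [FiniteDimensional K A] (I : Ideal A)
    (hI : ∀ x ∈ I, IsNilpotent x) :
    3 * finrank K (Submodule.span K ((fun x : A => x ^ p) '' (I : Set A))) ≤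
      2 * finrank K (I.restrictScalars K) := by
  have hp2 : 2 ≤ p := hp.out.two_le
  have hN : IsNoetherian K A := inferInstance
  have : IsNoetherianRing A := isNoetherian_of_tower K hN
  obtain ⟨n, hn⟩ := IsNoetherianRing.isNilpotent_nilradical A
  have hpow : ∀ x ∈ I, x ^ n = 0 := by
    intro x hx
    have h1 : x ∈ nilradical A := hI x hx
    have h2 := Ideal.pow_mem_pow h1 n
    rw [hn] at h2
    simpa using h2
  obtain ⟨a, haI, hgen⟩ := exists_generic (K := K) I (n + 3)
  refine count K p A I a (hI a haI) ?_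
  intro i w hw haw
  obtain ⟨m, rfl⟩ : ∃ m, p = m + 2 := ⟨p - 2, by omega⟩
  by_cases hlt : (m + 2) * i + 1 < n + 3
  · have hj0 : (((m + 2) * i + 1 : ℕ) : K) ≠ 0 := by
      rw [Nat.cast_add, Nat.cast_mul, CharP.cast_eq_zero, zero_mul, zero_add, Nat.cast_one]
      exact one_ne_zero
    obtain ⟨c, hc, hc'⟩ := propA I a w w hw ((m + 2) * i + 1) (by omega) hj0 (hgen w hw _ hlt) haw
    rw [Nat.add_sub_cancel] at hc'
    refine ⟨c * w ^ m, I.mul_mem_right _ hc, ?_⟩
    calc a ^ ((m + 2) * i) * w ^ (m + 2) = (a ^ ((m + 2) * i) * (w * w)) * w ^ m := by ring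
      _ = a ^ ((m + 2) * i + 1) * (c * w ^ m) := by rw [hc']; ring
  · have : a ^ ((m + 2) * i) = 0 := by
      have h1 : n ≤ (m + 2) * i := by omega
      rw [← Nat.add_sub_cancel' h1, pow_add, hpow a haI, zero_mul]
    exact ⟨0, I.zero_mem, by rw [this, zero_mul, mul_zero]⟩

/-- for odd `p`: `2 dim Φ(I) ≤ dim I` -/
theorem coreOdd (K : Type*) [Field K] [Infinite K] (p : ℕ) [hp : Fact p.Prime] [CharP K p]
    (hp3 : 3 ≤ p)
    (A : Type*) [CommRing A] [Algebra K A] [FiniteDimensional K A] (I : Ideal A)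
    (hI : ∀ x ∈ I, IsNilpotent x) :
    2 * finrank K (Submodule.span K ((fun x : A => x ^ p) '' (I : Set A))) ≤
      finrank K (I.restrictScalars K) := by
  have hN : IsNoetherian K A := inferInstance
  have : IsNoetherianRing A := isNoetherian_of_tower K hN
  obtain ⟨n, hn⟩ := IsNoetherianRing.isNilpotent_nilradical A
  have hpow : ∀ x ∈ I, x ^ n = 0 := by
    intro x hx
    have h1 : x ∈ nilradical A := hI x hx
    have h2 := Ideal.pow_mem_pow h1 n
    rw [hn] at h2
    simpa using h2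
  obtain ⟨a, haI, hgen⟩ := exists_generic (K := K) I (n + 3)
  refine countOdd K p A I a (hI a haI) ?_
  intro i w hw haw
  obtain ⟨m, rfl⟩ : ∃ m, p = m + 3 := ⟨p - 3, by omega⟩
  by_cases hlt : (m + 3) * i + 1 < n + 3
  · have hj0 : (((m + 3) * i + 1 : ℕ) : K) ≠ 0 := by
      rw [Nat.cast_add, Nat.cast_mul, CharP.cast_eq_zero, zero_mul, zero_add, Nat.cast_one]
      exact one_ne_zero
    obtain ⟨c, hc, hc'⟩ := propA I a w w hw ((m + 3) * i + 1) (by omega) hj0 (hgen w hw _ hlt) haw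
    rw [Nat.add_sub_cancel] at hc'
    calc a ^ ((m + 3) * i) * w ^ (m + 3) = (a ^ ((m + 3) * i) * (w * w)) * (w * w ^ m) := by ring
      _ = (a ^ ((m + 3) * i + 1) * w) * (c * w ^ m) := by rw [hc']; ring
      _ = 0 := by rw [haw, zero_mul]
  · have : a ^ ((m + 3) * i) = 0 := by
      have h1 : n ≤ (m + 3) * i := by omega
      rw [← Nat.add_sub_cancel' h1, pow_add, hpow a haI, zero_mul]
    rw [this, zero_mul]

end Pool.Agent.Lib.MP_b83a82_al.Alg
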