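import Pool.Agent.Lib.MP_b83a82_al.Alg.Core

/-!
Descent to arbitrary fields, and the Frobenius kernel of a finite commutative nilpotent
`𝔽_p`-algebra: `dim N ≤ 3 dim {x : x ^ p = 0}` (all primes `p`).
-/
set_option autoImplicit false

namespace Pool.Agent.Lib.MP_b83a82_al.Alg

open Module

section

open TensorProduct

variable (F : Type*) [Field F] (R : Type*) [NonUnitalCommRing R] [Module F R] [IsScalarTower F R R]
  [SMulCommClass F R R]

private theorem inr_pow (a : R) (m : ℕ) : (Unitization.inr a : Unitization F R) ^ (m + 1) =
    Unitization.inr ((List.replicate m a).foldr (· * ·) a) := by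
  induction m with
  | zero => simp
  | succ m ih =>
    rw [pow_succ', ih, ← Unitization.inr_mul]
    rfl

/-- the augmentation -/
private noncomputable def eps (K : Type*) [Field K] [Algebra F K] :
    K ⊗[F] Unitization F R →ₐ[K] K :=
  (Algebra.TensorProduct.rid F K K).toAlgHom.comp
    (Algebra.TensorProduct.map (AlgHom.id K K) (Unitization.fstHom F R))

private theorem eps_tmul (K : Type*) [Field K] [Algebra F K] (k : K) (b : Unitization F R) :
    eps F R K (k ⊗ₜ b) = b.fst • k := by
  simp [eps]

private theorem eps_nil (K : Type*) [Field K] [Algebra F K]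
    (hn : ∃ n : ℕ, ∀ (a : R) (l : List R), l.length = n → l.foldr (· * ·) a = 0)
    (x : K ⊗[F] Unitization F R) :
    x - algebraMap K _ (eps F R K x) ∈ nilradical (K ⊗[F] Unitization F R) := by
  obtain ⟨n, hn⟩ := hn
  induction x using TensorProduct.induction_on with
  | zero => simp
  | tmul k b =>
    have h1 : (k ⊗ₜ b : K ⊗[F] Unitization F R) - algebraMap K _ (eps F R K (k ⊗ₜ b)) =
        (k ⊗ₜ 1) * (1 ⊗ₜ (Unitization.inr b.snd : Unitization F R)) := by
      rw [eps_tmul, Algebra.TensorProduct.tmul_mul_tmul, mul_one, one_mul]
      have h2 : (k ⊗ₜ b : K ⊗[F] Unitization F R) = k ⊗ₜ (Unitization.inl b.fst) +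
          k ⊗ₜ (Unitization.inr b.snd) := by
        rw [← TensorProduct.tmul_add, Unitization.inl_fst_add_inr_snd_eq]
      have h3 : (k ⊗ₜ (Unitization.inl b.fst) : K ⊗[F] Unitization F R) =
          algebraMap K _ (b.fst • k) := by
        rw [Algebra.TensorProduct.algebraMap_apply, Algebra.algebraMap_self, RingHom.id_apply,
          TensorProduct.smul_tmul]
        congr 1
        rw [← Unitization.algebraMap_eq_inl, Algebra.algebraMap_eq_smul_one]
      rw [h2, h3]
      abel
    rw [h1]
    apply Ideal.mul_mem_left
    rw [mem_nilradical]
    refine ⟨n + 1, ?_⟩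
    rw [Algebra.TensorProduct.tmul_pow, inr_pow, hn _ _ (List.length_replicate), one_pow]
    simp
  | add x y hx hy =>
    have h1 : x + y - algebraMap K _ (eps F R K (x + y)) =
        (x - algebraMap K _ (eps F R K x)) + (y - algebraMap K _ (eps F R K y)) := by
      rw [map_add, map_add]
      ring
    rw [h1]
    exact Ideal.add_mem _ hx hy

end

/-- the `p`-th power of an element of a non-unital ring -/
def ppow {R : Type*} [Mul R] (p : ℕ) (a : R) : R := (List.replicate (p - 1) a).foldr (· * ·) a

open TensorProduct in
/-- descent from the algebraic closure -/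
theorem span_ppow_le_of (α β : ℕ) (p : ℕ) (hp : p.Prime) (F : Type*) [Field F] [CharP F p]
    (R : Type*) [NonUnitalCommRing R] [Module F R] [IsScalarTower F R R]
    [SMulCommClass F R R] [FiniteDimensional F R]
    (hcore : ∀ I : Ideal (AlgebraicClosure F ⊗[F] Unitization F R),
      (∀ x ∈ I, IsNilpotent x) →
      α * finrank (AlgebraicClosure F) (Submodule.span (AlgebraicClosure F)
        ((fun x : AlgebraicClosure F ⊗[F] Unitization F R => x ^ p) ''
          (I : Set (AlgebraicClosure F ⊗[F] Unitization F R)))) ≤
        β * finrank (AlgebraicClosure F) (I.restrictScalars (AlgebraicClosure F)))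
    (hn : ∃ n : ℕ, ∀ (a : R) (l : List R), l.length = n → l.foldr (· * ·) a = 0) :
    α * finrank F (Submodule.span F (Set.range (fun a : R => ppow p a))) ≤
      β * finrank F R := by
  unfold ppow
  have : Fact p.Prime := ⟨hp⟩
  set K := AlgebraicClosure F with hK
  have : CharP K p := charP_of_injective_algebraMap (algebraMap F K).injective p
  have hfB : FiniteDimensional F (Unitization F R) :=
    Module.Finite.equiv (Unitization.linearEquiv F F R).symm
  set A := K ⊗[F] Unitization F R with hA
  set I : Ideal A := RingHom.ker (eps F R K) with hI
  have hrk : finrank F (Unitization F R) = 1 + finrank F R := by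
    rw [(Unitization.linearEquiv F F R).finrank_eq, Module.finrank_prod, Module.finrank_self]
  have hnil : ∀ x ∈ I, IsNilpotent x := by
    intro x hx
    have h1 := eps_nil F R K hn x
    rw [hI, RingHom.mem_ker] at hx
    rw [hx, map_zero, sub_zero, mem_nilradical] at h1
    exact h1
  have hdimI : finrank K (I.restrictScalars K) = finrank F R := by
    have h1 : finrank K (LinearMap.range (eps F R K).toLinearMap) +
        finrank K (LinearMap.ker (eps F R K).toLinearMap) = finrank K A :=
      LinearMap.finrank_range_add_finrank_ker (eps F R K).toLinearMap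
    have h4 : finrank K A = 1 + finrank F R := by
      exact (Module.finrank_baseChange (R := K) (S := F) (M' := Unitization F R)).trans hrk
    have h2 : LinearMap.range (eps F R K).toLinearMap = ⊤ := by
      rw [LinearMap.range_eq_top]
      intro k
      refine ⟨k ⊗ₜ 1, ?_⟩
      have h2 := eps_tmul F R K k 1
      rw [Unitization.fst_one, one_smul] at h2
      exact h2
    have h3 : LinearMap.ker (eps F R K).toLinearMap = I.restrictScalars K := by
      ext x
      rfl
    rw [h2, h3, finrank_top, Module.finrank_self, h4] at h1
    exact Nat.add_left_cancel h1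
  set U : Submodule F R := Submodule.span F
    (Set.range (fun a : R => (List.replicate (p - 1) a).foldr (· * ·) a)) with hU
  have hlow : finrank F U ≤
      finrank K (Submodule.span K ((fun x : A => x ^ p) '' (I : Set A))) := by
    set g : U →ₗ[F] Unitization F R := (Unitization.inrHom F F R).comp U.subtype with hg
    have hginj : Function.Injective g := by
      intro x y hxy
      apply U.injective_subtype
      exact Unitization.inr_injective (R := F) hxy
    have hGinj : Function.Injective (g.baseChange K) :=
      Module.Flat.lTensor_preserves_injective_linearMap g hginj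
    have h1 : finrank K (K ⊗[F] U) = finrank F U := Module.finrank_baseChange
    rw [← h1, ← LinearMap.finrank_range_of_inj hGinj]
    apply Submodule.finrank_mono
    rintro _ ⟨z, rfl⟩
    have key : ∀ u ∈ U, (1 ⊗ₜ (Unitization.inr u : Unitization F R) : A) ∈
        Submodule.span K ((fun x : A => x ^ p) '' (I : Set A)) := by
      intro u hu
      rw [hU] at hu
      induction hu using Submodule.span_induction with
      | mem u hu =>
        obtain ⟨a, rfl⟩ := hu
        apply Submodule.subset_span
        refine ⟨1 ⊗ₜ (Unitization.inr a : Unitization F R), ?_, ?_⟩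
        · rw [SetLike.mem_coe, hI, RingHom.mem_ker]
          have h2 := eps_tmul F R K 1 (Unitization.inr a)
          rw [Unitization.fst_inr, zero_smul] at h2
          exact h2
        · simp only
          rw [Algebra.TensorProduct.tmul_pow, one_pow]
          congr 1
          obtain ⟨m, rfl⟩ : ∃ m, p = m + 1 := ⟨p - 1, by have := hp.pos; omega⟩
          rw [inr_pow]
          rfl
      | zero => simp
      | add x y _ _ hx hy =>
        rw [Unitization.inr_add, TensorProduct.tmul_add]
        exact Submodule.add_mem _ hx hy
      | smul c x _ hx =>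
        have h2 : (1 ⊗ₜ (Unitization.inr (c • x) : Unitization F R) : A) =
            (algebraMap F K c) • (1 ⊗ₜ (Unitization.inr x : Unitization F R) : A) := by
          rw [Unitization.inr_smul, TensorProduct.tmul_smul, algebraMap_smul]
        rw [h2]
        exact Submodule.smul_mem _ _ hx
    induction z using TensorProduct.induction_on with
    | zero => rw [map_zero]; exact Submodule.zero_mem _
    | tmul k u =>
      have h2 : g.baseChange K (k ⊗ₜ u) = k • (1 ⊗ₜ (Unitization.inr (u : R) : Unitization F R) : A) := by
        rw [LinearMap.baseChange_tmul, TensorProduct.smul_tmul', smul_eq_mul, mul_one]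
        rfl
      rw [h2]
      exact Submodule.smul_mem _ _ (key u u.2)
    | add x y hx hy => rw [map_add]; exact Submodule.add_mem _ hx hy
  have hc := hcore I hnil
  rw [hdimI] at hc
  exact le_trans (Nat.mul_le_mul_left α hlow) hc

/-- For every f.d. commutative nilpotent algebra over a field of characteristic `p`:
three times the dimension of the span of the `p`-th powers is at most twice the dimension. -/
theorem span_ppow_le (p : ℕ) (hp : p.Prime) (F : Type*) [Field F] [CharP F p]
    (R : Type*) [NonUnitalCommRing R] [Module F R] [IsScalarTower F R R]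
    [SMulCommClass F R R] [FiniteDimensional F R]
    (hn : ∃ n : ℕ, ∀ (a : R) (l : List R), l.length = n → l.foldr (· * ·) a = 0) :
    3 * finrank F (Submodule.span F (Set.range (fun a : R => ppow p a))) ≤
      2 * finrank F R := by
  have : Fact p.Prime := ⟨hp⟩
  have : CharP (AlgebraicClosure F) p :=
    charP_of_injective_algebraMap (algebraMap F (AlgebraicClosure F)).injective p
  have hfB : FiniteDimensional F (Unitization F R) :=
    Module.Finite.equiv (Unitization.linearEquiv F F R).symm
  exact span_ppow_le_of 3 2 p hp F R (fun I hI => core (AlgebraicClosure F) p _ I hI) hn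

/-- the same for `p ≥ 3`: twice the dimension of the span of the `p`-th powers is at most the
dimension. -/
theorem span_ppow_le_odd (p : ℕ) (hp : p.Prime) (hp3 : 3 ≤ p) (F : Type*) [Field F] [CharP F p]
    (R : Type*) [NonUnitalCommRing R] [Module F R] [IsScalarTower F R R]
    [SMulCommClass F R R] [FiniteDimensional F R]
    (hn : ∃ n : ℕ, ∀ (a : R) (l : List R), l.length = n → l.foldr (· * ·) a = 0) :
    2 * finrank F (Submodule.span F (Set.range (fun a : R => ppow p a))) ≤
      finrank F R := by
  have : Fact p.Prime := ⟨hp⟩
  have : CharP (AlgebraicClosure F) p :=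
    charP_of_injective_algebraMap (algebraMap F (AlgebraicClosure F)).injective p
  have hfB : FiniteDimensional F (Unitization F R) :=
    Module.Finite.equiv (Unitization.linearEquiv F F R).symm
  have h := span_ppow_le_of 2 1 p hp F R (fun I hI => by
    rw [one_mul]
    exact coreOdd (AlgebraicClosure F) p hp3 _ I hI) hn
  rwa [one_mul] at h

end Pool.Agent.Lib.MP_b83a82_al.Alg
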