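import Pool.Agent.Lib.MP_b83a82_al.Alg.SC

/-!
Generic elements of a nil ideal of a finite-dimensional commutative algebra over an infinite field.
-/
set_option autoImplicit false

namespace Pool.Agent.Lib.MP_b83a82_al.Alg

open Module Polynomial

section
variable (K : Type*) [Field K] {A : Type*} [CommRing A] [Algebra K A]

/-- the dimension of `x I` -/
noncomputable def rk (I : Ideal A) (x : A) : ℕ :=
  finrank K ((I.restrictScalars K).map (LinearMap.mulLeft K x))

/-- value of a polynomial with coefficients in `A` at a scalar -/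
noncomputable def ev (q : A[X]) (t : K) : A := q.eval (algebraMap K A t)

variable {K}

theorem ev_eq_sum (q : A[X]) (t : K) (d : ℕ) (hd : q.natDegree < d) :
    ev K q t = ∑ i ∈ Finset.range d, t ^ i • q.coeff i := by
  unfold ev
  rw [Polynomial.eval_eq_sum_range' hd]
  refine Finset.sum_congr rfl fun i _ => ?_
  rw [Algebra.smul_def, map_pow, mul_comm]

theorem range_fam (I : Ideal A) (x : A) :
    LinearMap.range ((LinearMap.mulLeft K x).comp (I.restrictScalars K).subtype) =
      (I.restrictScalars K).map (LinearMap.mulLeft K x) := by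
  rw [LinearMap.range_comp, Submodule.range_subtype]

theorem fam_eq (I : Ideal A) (q : A[X]) (t : K) (d : ℕ) (hd : q.natDegree < d) :
    (LinearMap.mulLeft K (ev K q t)).comp (I.restrictScalars K).subtype =
      ∑ i ∈ Finset.range d, t ^ i •
        (LinearMap.mulLeft K (q.coeff i)).comp (I.restrictScalars K).subtype := by
  ext v
  simp only [LinearMap.comp_apply, LinearMap.mulLeft_apply, LinearMap.sum_apply,
    LinearMap.smul_apply, ev_eq_sum q t d hd, Finset.sum_mul, smul_mul_assoc]

theorem sc_mul [FiniteDimensional K A] (I : Ideal A) (q : A[X]) :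
    {t : K | rk K I (ev K q t) < rk K I (ev K q 0)}.Finite := by
  have h := rank_semicont K (I.restrictScalars K) A (q.natDegree + 1)
    (fun i => (LinearMap.mulLeft K (q.coeff i)).comp (I.restrictScalars K).subtype)
  refine h.subset ?_
  intro t ht
  simp only [Set.mem_ofPred_eq] at ht ⊢
  rw [← fam_eq I q t _ (Nat.lt_succ_self _), ← fam_eq I q 0 _ (Nat.lt_succ_self _),
    range_fam, range_fam]
  exact ht

/-- the limit lemma -/
theorem lim [Infinite K] [FiniteDimensional K A] (I : Ideal A) (q r : A[X])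
    (hq : {t : K | rk K I (ev K q t) ≠ rk K I (ev K q 0)}.Finite)
    (hr : ∀ t : K, t ≠ 0 → ∃ v ∈ I, ev K r t = ev K q t * v) :
    ∃ v ∈ I, ev K r 0 = ev K q 0 * v := by
  classical
  by_contra hcon
  set d := max q.natDegree r.natDegree + 1 with hd
  have hdq : q.natDegree < d := Nat.lt_succ_of_le (le_max_left _ _)
  have hdr : r.natDegree < d := Nat.lt_succ_of_le (le_max_right _ _)
  let F : K → (I.restrictScalars K) →ₗ[K] A := fun t =>
    (LinearMap.mulLeft K (ev K q t)).comp (I.restrictScalars K).subtype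
  let G : K → ((I.restrictScalars K) × K) →ₗ[K] A := fun t =>
    (F t).coprod (LinearMap.toSpanSingleton K A (ev K r t))
  have hG : ∀ t : K, G t = ∑ i ∈ Finset.range d, t ^ i •
      (((LinearMap.mulLeft K (q.coeff i)).comp (I.restrictScalars K).subtype).coprod
        (LinearMap.toSpanSingleton K A (r.coeff i))) := by
    intro t
    apply LinearMap.ext
    rintro ⟨v, s⟩
    simp only [G, F, LinearMap.coprod_apply, LinearMap.sum_apply, LinearMap.smul_apply,
      LinearMap.comp_apply, LinearMap.mulLeft_apply, LinearMap.toSpanSingleton_apply,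
      ev_eq_sum q t d hdq, ev_eq_sum r t d hdr, smul_add, Finset.sum_add_distrib,
      Finset.sum_mul, smul_mul_assoc, Finset.smul_sum]
    congr 1
    refine Finset.sum_congr rfl fun i _ => ?_
    rw [smul_comm]
  have hrange : ∀ t : K, LinearMap.range (G t) =
      LinearMap.range (F t) ⊔ Submodule.span K {ev K r t} := by
    intro t
    simp only [G]
    rw [LinearMap.range_coprod, LinearMap.range_toSpanSingleton]
  have hmem : ∀ t : K, (∃ v ∈ I, ev K r t = ev K q t * v) ↔ ev K r t ∈ LinearMap.range (F t) := by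
    intro t
    constructor
    · rintro ⟨v, hv, hv'⟩
      exact ⟨⟨v, hv⟩, by simp [F, hv']⟩
    · rintro ⟨⟨v, hv⟩, hv'⟩
      exact ⟨v, hv, by rw [← hv']; simp [F]⟩
  have h0 : finrank K (LinearMap.range (F 0)) + 1 ≤ finrank K (LinearMap.range (G 0)) := by
    have hlt : LinearMap.range (F 0) < LinearMap.range (G 0) := by
      rw [hrange]
      refine lt_of_le_of_ne le_sup_left fun heq => hcon ?_
      rw [hmem, heq]
      exact Submodule.mem_sup_right (Submodule.mem_span_singleton_self _)
    exact Submodule.finrank_lt_finrank_of_lt hlt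
  have hsc := rank_semicont K ((I.restrictScalars K) × K) A d
    (fun i => ((LinearMap.mulLeft K (q.coeff i)).comp (I.restrictScalars K).subtype).coprod
        (LinearMap.toSpanSingleton K A (r.coeff i)))
  have hfin := (hq.union hsc).union (Set.finite_singleton (0 : K))
  obtain ⟨t, ht⟩ := hfin.exists_notMem
  simp only [Set.mem_union, Set.mem_ofPred_eq, Set.mem_singleton_iff, not_or, not_lt, not_not] at ht
  obtain ⟨⟨h1, h2⟩, h3⟩ := ht
  rw [← hG t, ← hG 0] at h2
  have h4 : LinearMap.range (G t) = LinearMap.range (F t) := by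
    rw [hrange, sup_eq_left, Submodule.span_singleton_le_iff_mem]
    exact (hmem t).1 (hr t h3)
  have h5 : finrank K (LinearMap.range (F t)) = finrank K (LinearMap.range (F 0)) := by
    have e : ∀ s : K, finrank K (LinearMap.range (F s)) = rk K I (ev K q s) := fun s => by
      unfold rk
      rw [← range_fam]
    rw [e, e]
    exact h1
  rw [h4] at h2
  omega

/-- existence of generic elements -/
theorem exists_generic [FiniteDimensional K A] (I : Ideal A) (B : ℕ) :
    ∃ a ∈ I, ∀ b ∈ I, ∀ j < B,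
      {t : K | rk K I ((a + algebraMap K A t * b) ^ j) ≠ rk K I (a ^ j)}.Finite := by
  classical
  let S : A → ℕ := fun x => ∑ j ∈ Finset.range B, rk K I (x ^ j)
  have hbdd : BddAbove (S '' (I : Set A)) := by
    refine ⟨B * finrank K A, ?_⟩
    rintro _ ⟨x, _, rfl⟩
    calc S x ≤ ∑ _j ∈ Finset.range B, finrank K A :=
          Finset.sum_le_sum fun j _ => Submodule.finrank_le _
      _ = B * finrank K A := by simp
  have hne : (S '' (I : Set A)).Nonempty := ⟨S 0, 0, I.zero_mem, rfl⟩
  obtain ⟨a, haI, ha⟩ := Nat.sSup_mem hne hbdd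
  have hmax : ∀ x ∈ I, S x ≤ S a := fun x hx => by
    rw [ha]; exact le_csSup hbdd ⟨x, hx, rfl⟩
  refine ⟨a, haI, fun b hb j hj => ?_⟩
  let q : ℕ → A[X] := fun i => (C a + X * C b) ^ i
  have hev : ∀ (i : ℕ) (t : K), ev K (q i) t = (a + algebraMap K A t * b) ^ i := by
    intro i t
    simp only [ev, q, eval_pow, eval_add, eval_C, eval_mul, eval_X]
  have hfin : (⋃ i ∈ Finset.range B,
      {t : K | rk K I (ev K (q i) t) < rk K I (ev K (q i) 0)}).Finite :=
    Set.Finite.biUnion (Finset.finite_toSet _) fun i _ => sc_mul I (q i)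
  refine hfin.subset ?_
  intro t ht
  by_contra hcon
  simp only [Set.mem_iUnion, Set.mem_ofPred_eq, not_exists, not_lt, Finset.mem_range] at hcon
  simp only [hev, map_zero, zero_mul, add_zero] at hcon
  have hx : a + algebraMap K A t * b ∈ I := I.add_mem haI (I.mul_mem_left _ hb)
  have h1 := hmax _ hx
  have h2 : ∀ i ∈ Finset.range B, rk K I (a ^ i) ≤ rk K I ((a + algebraMap K A t * b) ^ i) :=
    fun i hi => hcon i (Finset.mem_range.1 hi)
  have h3 : S (a + algebraMap K A t * b) = S a := le_antisymm h1 (Finset.sum_le_sum h2)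
  have h4 := (Finset.sum_eq_sum_iff_of_le h2).1 h3.symm j (Finset.mem_range.2 hj)
  exact ht h4.symm

end

section
variable {K : Type*} [Field K] [Infinite K] {A : Type*} [CommRing A] [Algebra K A]
  [FiniteDimensional K A]

/-- (A_j) -/
theorem propA (I : Ideal A) (a : A)
    (b w : A) (hw : w ∈ I) (j : ℕ) (hj : 1 ≤ j) (hj0 : (j : K) ≠ 0)
    (hgen : {t : K | rk K I ((a + algebraMap K A t * b) ^ j) ≠ rk K I (a ^ j)}.Finite)
    (haw : a ^ j * w = 0) :
    ∃ c ∈ I, a ^ (j - 1) * (b * w) = a ^ j * c := by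
  let q : A[X] := (C a + X * C b) ^ j
  let r : A[X] := C (b * w) * ∑ i ∈ Finset.range j, (C a + X * C b) ^ i * (C a) ^ (j - 1 - i)
  have hevq : ∀ t : K, ev K q t = (a + algebraMap K A t * b) ^ j := by
    intro t; simp only [ev, q, eval_pow, eval_add, eval_C, eval_mul, eval_X]
  have hevr : ∀ t : K, ev K r t = b * w *
      ∑ i ∈ Finset.range j, (a + algebraMap K A t * b) ^ i * a ^ (j - 1 - i) := by
    intro t; simp only [ev, r, eval_pow, eval_add, eval_C, eval_mul, eval_X, eval_finsetSum]
  have hkey : ∀ t : K, algebraMap K A t * ev K r t = (a + algebraMap K A t * b) ^ j * w := by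
    intro t
    have h1 := (Commute.all (a + algebraMap K A t * b) a).geom_sum₂_mul j
    have h2 : (a + algebraMap K A t * b) - a = algebraMap K A t * b := by ring
    rw [h2] at h1
    rw [hevr]
    calc algebraMap K A t * (b * w *
          ∑ i ∈ Finset.range j, (a + algebraMap K A t * b) ^ i * a ^ (j - 1 - i))
        = ((∑ i ∈ Finset.range j, (a + algebraMap K A t * b) ^ i * a ^ (j - 1 - i)) *
            (algebraMap K A t * b)) * w := by ring
      _ = ((a + algebraMap K A t * b) ^ j - a ^ j) * w := by rw [h1]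
      _ = (a + algebraMap K A t * b) ^ j * w := by rw [sub_mul, haw, sub_zero]
  have e0 : ev K q 0 = a ^ j := by rw [hevq, map_zero, zero_mul, add_zero]
  have hq' : {t : K | rk K I (ev K q t) ≠ rk K I (ev K q 0)}.Finite := by
    have e1 : {t : K | rk K I (ev K q t) ≠ rk K I (ev K q 0)} =
        {t : K | rk K I ((a + algebraMap K A t * b) ^ j) ≠ rk K I (a ^ j)} := by
      ext t
      rw [Set.mem_ofPred_eq, Set.mem_ofPred_eq, hevq t, e0]
    rw [e1]; exact hgen
  have hlim : ∃ v ∈ I, ev K r 0 = ev K q 0 * v := lim I q r hq' (by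
    intro t ht
    refine ⟨algebraMap K A t⁻¹ * w, I.mul_mem_left _ hw, ?_⟩
    have h1 : algebraMap K A t⁻¹ * algebraMap K A t = 1 := by
      rw [← map_mul, inv_mul_cancel₀ ht, map_one]
    calc ev K r t = (algebraMap K A t⁻¹ * algebraMap K A t) * ev K r t := by rw [h1, one_mul]
      _ = algebraMap K A t⁻¹ * (algebraMap K A t * ev K r t) := by ring
      _ = ev K q t * (algebraMap K A t⁻¹ * w) := by rw [hkey, hevq]; ring)
  obtain ⟨v, hv, hv'⟩ := hlim
  rw [hevq, hevr] at hv'
  simp only [map_zero, zero_mul, add_zero] at hv'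
  have hsum : ∑ i ∈ Finset.range j, a ^ i * a ^ (j - 1 - i) = (j : A) * a ^ (j - 1) := by
    rw [Finset.sum_congr rfl (g := fun _ => a ^ (j - 1))]
    · simp
    · intro i hi
      rw [← pow_add]
      congr 1
      have := Finset.mem_range.1 hi
      omega
  rw [hsum] at hv'
  refine ⟨algebraMap K A (j : K)⁻¹ * v, I.mul_mem_left _ hv, ?_⟩
  have h1 : algebraMap K A (j : K)⁻¹ * (j : A) = 1 := by
    rw [← map_natCast (algebraMap K A) j, ← map_mul, inv_mul_cancel₀ hj0, map_one]
  calc a ^ (j - 1) * (b * w) = (algebraMap K A (j : K)⁻¹ * (j : A)) * (a ^ (j - 1) * (b * w)) := by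
        rw [h1, one_mul]
    _ = algebraMap K A (j : K)⁻¹ * (b * w * ((j : A) * a ^ (j - 1))) := by ring
    _ = a ^ j * (algebraMap K A (j : K)⁻¹ * v) := by rw [hv']; ring

/-- (B) -/
theorem propB (I : Ideal A) (a : A) (h2 : (2 : K) ≠ 0)
    (hgen : ∀ b ∈ I, {t : K | rk K I ((a + algebraMap K A t * b) ^ 2) ≠ rk K I (a ^ 2)}.Finite)
    (w : A) (hw : w ∈ I) (haw : a ^ 2 * w = 0) :
    ∃ c ∈ I, w ^ 3 = a ^ 2 * c := by
  have hA2 : ∀ b ∈ I, ∃ c ∈ I, a * (b * w) = a ^ 2 * c := by
    intro b hb
    have := propA I a b w hw 2 (by norm_num) (by exact_mod_cast h2) (hgen b hb) haw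
    simpa using this
  obtain ⟨c, hc, hc'⟩ := hA2 w hw
  obtain ⟨c', hc'I, hc''⟩ := hA2 c hc
  let q : A[X] := (C a + X * C w) ^ 2
  let r : A[X] := C (w ^ 3 - 4 * a * w * c) - X * C (2 * w ^ 2 * c)
  have hevq : ∀ t : K, ev K q t = (a + algebraMap K A t * w) ^ 2 := by
    intro t; simp only [ev, q, eval_pow, eval_add, eval_C, eval_mul, eval_X]
  have hevr : ∀ t : K, ev K r t = w ^ 3 - 4 * a * w * c - algebraMap K A t * (2 * w ^ 2 * c) := by
    intro t; simp only [ev, r, eval_sub, eval_C, eval_mul, eval_X]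
  have e0 : ev K q 0 = a ^ 2 := by rw [hevq, map_zero, zero_mul, add_zero]
  have hq' : {t : K | rk K I (ev K q t) ≠ rk K I (ev K q 0)}.Finite := by
    have e1 : {t : K | rk K I (ev K q t) ≠ rk K I (ev K q 0)} =
        {t : K | rk K I ((a + algebraMap K A t * w) ^ 2) ≠ rk K I (a ^ 2)} := by
      ext t
      rw [Set.mem_ofPred_eq, Set.mem_ofPred_eq, hevq t, e0]
    rw [e1]; exact hgen w hw
  have hlim : ∃ v ∈ I, ev K r 0 = ev K q 0 * v := lim I q r hq' (by
    intro t ht
    refine ⟨algebraMap K A t⁻¹ ^ 2 * (w - 2 * algebraMap K A t * c),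
      I.mul_mem_left _ (I.sub_mem hw (I.mul_mem_left _ hc)), ?_⟩
    have h1 : algebraMap K A t⁻¹ * algebraMap K A t = 1 := by
      rw [← map_mul, inv_mul_cancel₀ ht, map_one]
    rw [hevq, hevr]
    set s := algebraMap K A t⁻¹
    set τ := algebraMap K A t
    have e1 : (a + τ * w) ^ 2 * (w - 2 * τ * c) =
        τ ^ 2 * (w ^ 3 - 4 * a * w * c - τ * (2 * w ^ 2 * c)) := by
      have : (a + τ * w) ^ 2 * (w - 2 * τ * c) - τ ^ 2 * (w ^ 3 - 4 * a * w * c - τ * (2 * w ^ 2 * c))
          = a ^ 2 * w + 2 * τ * (a * (w * w) - a ^ 2 * c) := by ring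
      rw [haw, hc', sub_self, mul_zero, add_zero] at this
      exact sub_eq_zero.1 this
    calc w ^ 3 - 4 * a * w * c - τ * (2 * w ^ 2 * c)
        = (s * τ) ^ 2 * (w ^ 3 - 4 * a * w * c - τ * (2 * w ^ 2 * c)) := by rw [h1]; ring
      _ = s ^ 2 * (τ ^ 2 * (w ^ 3 - 4 * a * w * c - τ * (2 * w ^ 2 * c))) := by ring
      _ = (a + τ * w) ^ 2 * (s ^ 2 * (w - 2 * τ * c)) := by rw [← e1]; ring)
  obtain ⟨v, hv, hv'⟩ := hlim
  rw [hevq, hevr] at hv'
  simp only [map_zero, zero_mul, add_zero, sub_zero] at hv'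
  refine ⟨v + 4 * c', I.add_mem hv (I.mul_mem_left _ hc'I), ?_⟩
  calc w ^ 3 = (w ^ 3 - 4 * a * w * c) + 4 * (a * (c * w)) := by ring
    _ = a ^ 2 * (v + 4 * c') := by rw [hv', hc'']; ring

end

end Pool.Agent.Lib.MP_b83a82_al.Alg
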