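import Pool.Agent.Lib.MP_b83a82_al.Alg.Descent

/-!
Interface for the group half: a finite commutative nilpotent ring `N` of prime characteristic `p`
satisfies `|N| ≤ |{x : x ^ p = 0}| ^ 3`.
-/
set_option autoImplicit false

namespace Pool.Agent.Lib.MP_b83a82_al.Alg

open Module

section
variable (p : ℕ) [hp : Fact p.Prime] (R : Type*) [NonUnitalCommRing R]

theorem ppow_inr [Module (ZMod p) R] [IsScalarTower (ZMod p) R R] [SMulCommClass (ZMod p) R R]
    (a : R) :
    (Unitization.inr a : Unitization (ZMod p) R) ^ p = Unitization.inr (ppow p a) := by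
  have key : ∀ m : ℕ, (Unitization.inr a : Unitization (ZMod p) R) ^ (m + 1) =
      Unitization.inr ((List.replicate m a).foldr (· * ·) a) := by
    intro m
    induction m with
    | zero => simp
    | succ m ih =>
      rw [pow_succ', ih, ← Unitization.inr_mul]
      rfl
  have h1 := key (p - 1)
  rw [Nat.sub_add_cancel hp.out.one_le] at h1
  exact h1

/-- Frobenius as an `𝔽_p`-linear map -/
noncomputable def frob [Module (ZMod p) R] [IsScalarTower (ZMod p) R R]
    [SMulCommClass (ZMod p) R R] : R →ₗ[ZMod p] R where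
  toFun := ppow p
  map_add' x y := by
    have : CharP (Unitization (ZMod p) R) p :=
      charP_of_injective_algebraMap (algebraMap (ZMod p) (Unitization (ZMod p) R)).injective p
    apply Unitization.inr_injective (R := ZMod p)
    rw [← ppow_inr, Unitization.inr_add, Unitization.inr_add, ← ppow_inr, ← ppow_inr,
      add_pow_char]
  map_smul' c x := by
    apply Unitization.inr_injective (R := ZMod p)
    rw [← ppow_inr, Unitization.inr_smul, smul_pow, ZMod.pow_card, ppow_inr, RingHom.id_apply,
      Unitization.inr_smul]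

theorem frob_apply [Module (ZMod p) R] [IsScalarTower (ZMod p) R R]
    [SMulCommClass (ZMod p) R R] (x : R) : frob p R x = ppow p x := rfl

/-- dimension form -/
theorem finrank_le_mul_ker (C : ℕ) (hC : C = 3 ∨ (C = 2 ∧ 3 ≤ p)) [Module (ZMod p) R]
    [IsScalarTower (ZMod p) R R]
    [SMulCommClass (ZMod p) R R] [FiniteDimensional (ZMod p) R]
    (hn : ∃ n : ℕ, ∀ (a : R) (l : List R), l.length = n → l.foldr (· * ·) a = 0) :
    finrank (ZMod p) R ≤ C * finrank (ZMod p) (LinearMap.ker (frob p R)) := by
  have h2 : Submodule.span (ZMod p) (Set.range (fun a : R => ppow p a)) =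
      LinearMap.range (frob p R) := by
    have : Set.range (fun a : R => ppow p a) = (LinearMap.range (frob p R) : Set R) := by
      ext x
      simp [frob_apply]
    rw [this, Submodule.span_eq]
  have h3 := LinearMap.finrank_range_add_finrank_ker (frob p R)
  rcases hC with rfl | ⟨rfl, hp3⟩
  · have h1 := span_ppow_le p hp.out (ZMod p) R hn
    rw [h2] at h1
    omega
  · have h1 := span_ppow_le_odd p hp.out hp3 (ZMod p) R hn
    rw [h2] at h1
    omega

end

/-- cardinality form: no module structure needed -/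
theorem card_le_pow (p : ℕ) (hp : p.Prime) (C : ℕ) (hC : C = 3 ∨ (C = 2 ∧ 3 ≤ p)) (R : Type*)
    [NonUnitalCommRing R] [Finite R] (hpR : ∀ x : R, p • x = 0)
    (hn : ∃ n : ℕ, ∀ (a : R) (l : List R), l.length = n → l.foldr (· * ·) a = 0) :
    Nat.card R ≤ Nat.card {x : R // ppow p x = 0} ^ C := by
  have : Fact p.Prime := ⟨hp⟩
  let _ : Module (ZMod p) R := AddCommGroup.zmodModule (n := p) hpR
  have : IsScalarTower (ZMod p) R R := ⟨fun c x y => by
    obtain ⟨m, rfl⟩ := ZMod.natCast_zmod_surjective c
    simp only [Nat.cast_smul_eq_nsmul, smul_eq_mul, smul_mul_assoc]⟩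
  have : SMulCommClass (ZMod p) R R := ⟨fun c x y => by
    obtain ⟨m, rfl⟩ := ZMod.natCast_zmod_surjective c
    simp only [Nat.cast_smul_eq_nsmul, smul_eq_mul, mul_smul_comm]⟩
  have : FiniteDimensional (ZMod p) R := Module.Finite.of_finite
  have h1 := finrank_le_mul_ker p R C hC hn
  have h2 : Nat.card {x : R // ppow p x = 0} = Nat.card (LinearMap.ker (frob p R)) := rfl
  have h3 : Nat.card R = p ^ finrank (ZMod p) R := by
    rw [Module.natCard_eq_pow_finrank (K := ZMod p), Nat.card_zmod]
  have h4 : Nat.card (LinearMap.ker (frob p R)) =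
      p ^ finrank (ZMod p) (LinearMap.ker (frob p R)) := by
    rw [Module.natCard_eq_pow_finrank (K := ZMod p), Nat.card_zmod]
  rw [h2, h3, h4, ← pow_mul, mul_comm _ C]
  exact Nat.pow_le_pow_right hp.pos h1

/-- A finite commutative ring of characteristic `p` all of whose elements are nilpotent is
nilpotent. -/
theorem nilpotent_of_forall (p : ℕ) (hp : p.Prime) (R : Type*) [NonUnitalCommRing R] [Finite R]
    (hpR : ∀ x : R, p • x = 0)
    (hn : ∀ x : R, ∃ m : ℕ, (List.replicate m x).foldr (· * ·) x = 0) :
    ∃ n : ℕ, ∀ (a : R) (l : List R), l.length = n → l.foldr (· * ·) a = 0 := by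
  have : Fact p.Prime := ⟨hp⟩
  let _ : Module (ZMod p) R := AddCommGroup.zmodModule (n := p) hpR
  have : IsScalarTower (ZMod p) R R := ⟨fun c x y => by
    obtain ⟨m, rfl⟩ := ZMod.natCast_zmod_surjective c
    simp only [Nat.cast_smul_eq_nsmul, smul_eq_mul, smul_mul_assoc]⟩
  have : SMulCommClass (ZMod p) R R := ⟨fun c x y => by
    obtain ⟨m, rfl⟩ := ZMod.natCast_zmod_surjective c
    simp only [Nat.cast_smul_eq_nsmul, smul_eq_mul, mul_smul_comm]⟩
  have hfin : FiniteDimensional (ZMod p) R := Module.Finite.of_finite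
  have hfB : FiniteDimensional (ZMod p) (Unitization (ZMod p) R) :=
    Module.Finite.equiv (Unitization.linearEquiv (ZMod p) (ZMod p) R).symm
  have hN : IsNoetherian (ZMod p) (Unitization (ZMod p) R) := inferInstance
  have : IsNoetherianRing (Unitization (ZMod p) R) := isNoetherian_of_tower (ZMod p) hN
  have hnil : ∀ x : R, (Unitization.inr x : Unitization (ZMod p) R) ∈
      nilradical (Unitization (ZMod p) R) := by
    intro x
    obtain ⟨m, hm⟩ := hn x
    rw [mem_nilradical]
    refine ⟨m + 1, ?_⟩
    have key : ∀ m : ℕ, (Unitization.inr x : Unitization (ZMod p) R) ^ (m + 1) =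
        Unitization.inr ((List.replicate m x).foldr (· * ·) x) := by
      intro m
      induction m with
      | zero => simp
      | succ m ih =>
        rw [pow_succ', ih, ← Unitization.inr_mul]
        rfl
    rw [key, hm, Unitization.inr_zero]
  obtain ⟨n, hn'⟩ := IsNoetherianRing.isNilpotent_nilradical (Unitization (ZMod p) R)
  refine ⟨n, fun a l hl => ?_⟩
  have h1 : ∀ l : List R, (Unitization.inr (l.foldr (· * ·) a) : Unitization (ZMod p) R) ∈
      nilradical (Unitization (ZMod p) R) ^ l.length := by
    intro l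
    induction l with
    | nil => simp
    | cons b l ih =>
      rw [List.foldr_cons, Unitization.inr_mul, List.length_cons, pow_succ']
      exact Ideal.mul_mem_mul (hnil b) ih
  have h2 := h1 l
  rw [hl, hn'] at h2
  have h3 : (Unitization.inr (l.foldr (· * ·) a) : Unitization (ZMod p) R) = 0 := by
    simpa using h2
  apply Unitization.inr_injective (R := ZMod p)
  rw [h3, Unitization.inr_zero]

/-- final form: a finite commutative ring `R` of prime characteristic `p` (no unit) with all
elements nilpotent satisfies `|R| ≤ |{x : x ^ p = 0}| ^ 3`, and `... ^ 2` if `p` is odd. -/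
theorem card_le_pow' (p : ℕ) (hp : p.Prime) (C : ℕ) (hC : C = 3 ∨ (C = 2 ∧ 3 ≤ p)) (R : Type*)
    [NonUnitalCommRing R] [Finite R] (hpR : ∀ x : R, p • x = 0)
    (hn : ∀ x : R, ∃ m : ℕ, (List.replicate m x).foldr (· * ·) x = 0) :
    Nat.card R ≤ Nat.card {x : R // ppow p x = 0} ^ C :=
  card_le_pow p hp C hC R hpR (nilpotent_of_forall p hp R hpR hn)

end Pool.Agent.Lib.MP_b83a82_al.Alg

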