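import Mathlib

/-!
Lower semicontinuity of the rank in a polynomial family of linear maps.
-/
set_option autoImplicit false

namespace Pool.Agent.Lib.MP_b83a82_al.Alg

open Module

/-- For all but finitely many `t` the rank of `Σ t^i c_i` is at least the rank at `t = 0`. -/
theorem rank_semicont (K : Type*) [Field K] (V W : Type*) [AddCommGroup V] [Module K V]
    [FiniteDimensional K V] [AddCommGroup W] [Module K W] [FiniteDimensional K W]
    (d : ℕ) (c : ℕ → V →ₗ[K] W) :
    {t : K | finrank K (LinearMap.range (∑ i ∈ Finset.range d, t ^ i • c i)) <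
      finrank K (LinearMap.range (∑ i ∈ Finset.range d, (0 : K) ^ i • c i))}.Finite := by
  classical
  set M : K → (V →ₗ[K] W) := fun t => ∑ i ∈ Finset.range d, t ^ i • c i with hM
  set r := finrank K (LinearMap.range (M 0)) with hr
  let b := finBasis K (LinearMap.range (M 0))
  have hex : ∀ j : Fin r, ∃ v : V, M 0 v = (b j : W) := fun j => (b j).2
  choose v hv using hex
  let ι : (Fin r → K) →ₗ[K] V := Fintype.linearCombination K v
  have hι : ∀ x : Fin r → K, ι x = ∑ j, x j • v j := fun x => Fintype.linearCombination_apply K v x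
  have hinj : LinearMap.ker (M 0 ∘ₗ ι) = ⊥ := by
    rw [LinearMap.ker_eq_bot']
    intro x hx
    have h1 : ((∑ j, x j • b j : LinearMap.range (M 0)) : W) = 0 := by
      rw [LinearMap.comp_apply, hι, map_sum] at hx
      rw [← hx]
      push_cast
      apply Finset.sum_congr rfl
      intro j _
      rw [map_smul, hv]
    have h2 : (∑ j, x j • b j : LinearMap.range (M 0)) = 0 := by
      exact_mod_cast h1
    have h3 := Fintype.linearIndependent_iff.1 b.linearIndependent x h2
    funext j
    exact h3 j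
  obtain ⟨π, hπ⟩ := LinearMap.exists_leftInverse_of_injective (M 0 ∘ₗ ι) hinj
  let D : ℕ → Matrix (Fin r) (Fin r) K := fun i => LinearMap.toMatrix' (π ∘ₗ c i ∘ₗ ι)
  let P : Matrix (Fin r) (Fin r) (Polynomial K) :=
    ∑ i ∈ Finset.range d, (Polynomial.X ^ i : Polynomial K) • (D i).map Polynomial.C
  have hPt : ∀ t : K, (Polynomial.evalRingHom t).mapMatrix P = LinearMap.toMatrix' (π ∘ₗ M t ∘ₗ ι) := by
    intro t
    have h1 : π ∘ₗ M t ∘ₗ ι = ∑ i ∈ Finset.range d, t ^ i • (π ∘ₗ c i ∘ₗ ι) := by
      ext x j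
      simp [hM]
    rw [h1, map_sum, map_sum]
    apply Finset.sum_congr rfl
    intro i _
    have h2 : LinearMap.toMatrix' (t ^ i • (π ∘ₗ c i ∘ₗ ι)) = t ^ i • D i := map_smul _ _ _
    rw [h2]
    ext a e
    rw [RingHom.mapMatrix_apply, Matrix.map_apply, Matrix.smul_apply, Matrix.smul_apply,
      Matrix.map_apply, smul_eq_mul, smul_eq_mul, map_mul, map_pow]
    simp
  have hdet : ∀ t : K, P.det.eval t = LinearMap.det (π ∘ₗ M t ∘ₗ ι) := by
    intro t
    have h1 : P.det.eval t = (Polynomial.evalRingHom t) P.det := rfl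
    rw [h1, RingHom.map_det, hPt, LinearMap.det_toMatrix']
  have h0 : P.det.eval 0 = 1 := by
    rw [hdet, hπ, LinearMap.det_id]
  have hP : P.det ≠ 0 := by
    intro h
    rw [h] at h0
    simp at h0
  refine (Finset.finite_toSet P.det.roots.toFinset).subset ?_
  intro t ht
  rw [Finset.mem_coe, Multiset.mem_toFinset, Polynomial.mem_roots hP, Polynomial.IsRoot]
  by_contra hne
  rw [hdet] at hne
  have hbij : Function.Injective (π ∘ₗ M t ∘ₗ ι) := by
    have := (LinearMap.equivOfDetNeZero (π ∘ₗ M t ∘ₗ ι) hne).injective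
    exact this
  let φ : (Fin r → K) →ₗ[K] LinearMap.range (M t) :=
    LinearMap.codRestrict _ (M t ∘ₗ ι) (fun x => ⟨ι x, rfl⟩)
  have hφ : Function.Injective φ := by
    intro x y hxy
    apply hbij
    have h1 : M t (ι x) = M t (ι y) := congrArg Subtype.val hxy
    show π (M t (ι x)) = π (M t (ι y))
    rw [h1]
  have h2 := LinearMap.finrank_le_finrank_of_injective hφ
  rw [finrank_fin_fun] at h2
  have h3 : finrank K (LinearMap.range (M t)) < r := ht
  omega

end Pool.Agent.Lib.MP_b83a82_al.Alg
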